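import Pool.Agent.PLG.Stmts

set_option autoImplicit false

namespace Pool.Agent.PLG.H85

theorem rot : RotStmt := by
  intro S
  classical
  obtain ⟨s, hs⟩ := Infinite.exists_notMem_finset (S.image fun u : ℂ => u.re / u.im)
  have hne : (1 + (s : ℂ) * Complex.I) ≠ 0 := by
    intro h
    have := congrArg Complex.re h
    simp at this
  have hn : ‖(1 + (s : ℂ) * Complex.I)‖ ≠ 0 := norm_ne_zero_iff.2 hne
  refine ⟨((‖(1 + (s : ℂ) * Complex.I)‖⁻¹ : ℝ) : ℂ) * (1 + (s : ℂ) * Complex.I), ?_, ?_⟩
  · rw [norm_mul, Complex.norm_real, norm_inv, norm_norm, inv_mul_cancel₀ hn]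
  · intro u hu hu0 h
    rw [mul_assoc, Complex.re_ofReal_mul] at h
    have h1 : ((1 + (s : ℂ) * Complex.I) * u).re = 0 := by
      rcases mul_eq_zero.1 h with h | h
      · exact absurd h (inv_ne_zero hn)
      · exact h
    have h2 : u.re - s * u.im = 0 := by
      have : ((1 + (s : ℂ) * Complex.I) * u).re = u.re - s * u.im := by
        simp [Complex.mul_re, Complex.add_re, Complex.add_im]
      rw [← this]
      exact h1
    by_cases him : u.im = 0
    · have hre : u.re = 0 := by
        rw [him, mul_zero, sub_zero] at h2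
        exact h2
      exact hu0 (Complex.ext hre him)
    · apply hs
      rw [Finset.mem_image]
      refine ⟨u, hu, ?_⟩
      rw [div_eq_iff him]
      linarith

end Pool.Agent.PLG.H85
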